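import Pool.Agent.W758.AHC.Stm

set_option autoImplicit false

namespace Pool.Agent.W446.AHC

open Pool.Agent.W758.AHC

variable {ι : Type} [DecidableEq ι]

/-- `I` is representing for `A`. -/
def Rep (A : Finset (Finset ι)) (I : Finset ι) : Prop :=
  ∃ (v : ι → ℚ) (c : ι → ι → ℚ), ∀ a ∈ A, ∀ j, j ∉ I → ind a j = v j + ∑ i ∈ a ∩ I, c i j

/-- splitting off one element of `I` from the sum over `a ∩ I`. -/
theorem sum_split (a I : Finset ι) (i1 : ι) (h1 : i1 ∈ I) (g : ι → ℚ) :
    ∑ i ∈ a ∩ I, g i = ∑ i ∈ a ∩ I.erase i1, g i + g i1 * ind a i1 := by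
  classical
  by_cases ha : i1 ∈ a
  · have hmem : i1 ∈ a ∩ I := Finset.mem_inter.mpr ⟨ha, h1⟩
    have heq : a ∩ I.erase i1 = (a ∩ I).erase i1 := by
      ext x
      simp only [Finset.mem_inter, Finset.mem_erase]
      tauto
    rw [heq, ← Finset.add_sum_erase _ g hmem]
    simp only [ind, ha, if_true]
    ring
  · have heq : a ∩ I.erase i1 = a ∩ I := by
      ext x
      simp only [Finset.mem_inter, Finset.mem_erase]
      constructor
      · rintro ⟨h, _, h'⟩
        exact ⟨h, h'⟩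
      · rintro ⟨h, h'⟩
        refine ⟨h, ?_, h'⟩
        rintro rfl
        exact ha h
    rw [heq]
    simp only [ind, ha, if_false]
    ring

theorem rep_erase (A : Finset (Finset ι)) (I : Finset ι) (hI : Rep A I) (i1 : ι) (h1 : i1 ∈ I)
    (g : ι → ℚ) (g0 : ℚ) (hg : ∀ a ∈ A, ∑ i ∈ a ∩ I, g i = g0) (hne : g i1 ≠ 0) :
    Rep A (I.erase i1) := by
  classical
  obtain ⟨v, c, hvc⟩ := hI
  -- value of `ind a i1`
  have hval : ∀ a ∈ A, ind a i1 = g0 / g i1 + ∑ i ∈ a ∩ I.erase i1, (- (g i / g i1)) := by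
    intro a ha
    have h := hg a ha
    rw [sum_split a I i1 h1 g] at h
    rw [Finset.sum_neg_distrib, ← Finset.sum_div]
    field_simp
    linarith
  refine ⟨fun j => if j = i1 then g0 / g i1 else v j + c i1 j * (g0 / g i1),
    fun i j => if j = i1 then - (g i / g i1) else c i j + c i1 j * (- (g i / g i1)), ?_⟩
  intro a ha j hj
  by_cases hj1 : j = i1
  · subst hj1
    simp only [if_true]
    exact hval a ha
  · have hjI : j ∉ I := by
      intro h
      exact hj (Finset.mem_erase.mpr ⟨hj1, h⟩)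
    simp only [hj1, if_false]
    rw [hvc a ha j hjI, sum_split a I i1 h1 (fun i => c i j)]
    rw [hval a ha, Finset.sum_add_distrib, ← Finset.mul_sum]
    ring

/-- the linear algebra statement -/
theorem la : S_LA := by
  classical
  intro ι _ _ A _
  have hex : ∃ n : ℕ, ∃ I : Finset ι, I.card = n ∧ Rep A I := by
    refine ⟨_, Finset.univ, rfl, fun _ => 0, fun _ _ => 0, ?_⟩
    intro a _ j hj
    exact absurd (Finset.mem_univ j) hj
  obtain ⟨I, hcard, hrep⟩ := Nat.find_spec hex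
  have hmin : ∀ J : Finset ι, Rep A J → I.card ≤ J.card := by
    intro J hJ
    rw [hcard]
    exact Nat.find_min' hex ⟨J, rfl, hJ⟩
  obtain ⟨v, c, hvc⟩ := hrep
  refine ⟨I, v, c, hvc, ?_⟩
  intro g g0 hg i hi
  by_contra hne
  have h := hmin _ (rep_erase A I ⟨v, c, hvc⟩ i hi g g0 hg hne)
  have h2 := Finset.card_erase_lt_of_mem hi
  omega

end Pool.Agent.W446.AHC
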